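import Pool.Agent.Run7.h912.DG.Q1

/-!
# A 2-adic polynomial Freiman-Ruzsa theorem for `ℤ^d`, and Q1 for sets hereditary in the digits

`bit a j` is the binary digit of the integer `a` at the place `j` (of its 2-adic expansion),
`kp J x` is the vector which has in the coordinate `l` the binary digits of `x l` at the places in
`J l` and the digit `0` at all other places. `Iso J A'`: for `x, y` in `A'` and every `m`, the
vectors `x, y` are congruent modulo `2 ^ m` iff `kp J x, kp J y` are: to keep only the digits at the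
places in `J` is an isometry of `A'` for the 2-adic metric. `Erase S`: `S` contains `kp T x` for all
`x` in `S` and all `T`, that is, `S` is closed under replacing binary digits by `0`. (So `S ⊆ ℕ^d`
and `S` is a simplicial complex on the set of all the places. Examples: all finite
down-sets of `ℕ^d`, all simplicial complexes of subsets of a finite set, as sets of `0-1` vectors.)
`lat B`: the integer points of `B`; `Body B`: `B` is a centrally symmetric convex body;
`Cov B θ H T A`: `A` is covered by the translates by `T` of the centred convex coset progression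
`θ(ℤ^s ∩ B) + H` (the last three are defined in the starting files `Pool.Agent.Y806.DF`).

Proof of (1). Let `ℤ^d = Γ_0 ⊇ Γ_1 ⊇ …` be the subgroups of index two of each other given by the digits,
in the order `(l, j)`, `j` first, and let `X, Y` be uniform on `A`. The entropy of the cosets of
`X + Y` increases, level by level, at least as much as that of `X`, since the level of `X + Y`
given the cosets of `X` and `Y` is a sum of independent random elements of `ℤ/2`; the total excess is
`≤ log K`. If `p` is the conditional probability of a digit, the excess is at least a constant times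
the mean of `min(H(p), log 2 - H(p))`, so on a level it is at least a constant times the entropy of
the digit, or times its distance from `log 2`: the levels are frozen or free. The free levels give
`J`. The frozen digits are made constant by choosing, one after the other, a Gibbs weighted
branch. The same inequality for `A + 2·A` (size `≤ K^3 |A|`) and the chain shifted by `d` gives a cost for
each place `j` with `j ∈ J l`, `j + 1 ∉ J l`: therefore `J` has only `O(log K)` intervals.
-/

set_option autoImplicit false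

namespace Pool.Agent.Results.MP_dd2a7c_co.TwoAdicStructure

open Finset
open scoped Pointwise
open Run7.h912.DG Pool.Agent.Y806.DF

universe u

/-- **A 2-adic polynomial Freiman-Ruzsa theorem.**
(1) Let `A ⊆ ℤ^d`, `d` arbitrary, be finite, nonempty, `|A + A| ≤ K |A|`. There are `A' ⊆ A`,
`|A| ≤ K^750 |A'|`, and sets `J l` of places such that keeping only the digits at the places in `J`
is a 2-adic isometry on `A'`; there are at most `6300 log K` maximal intervals in `J`, the vectors
which remain are all in a progression `P = {∑ c_i v_i : 0 ≤ c_i < n_i}` with one generator for each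
of these intervals and `∏ n_i = 2 ^ (∑ |J l|) ≤ K^2000 |A|`. In particular the
number of the classes of `A'` modulo `2 ^ m` is `2 ^ (∑ |J l ∩ [0, m)|)` up to a factor `K^2750`,
for every `m`.
(2) For every set `A` of any abelian group which is Freiman isomorphic to a set `S ⊆ ℤ^d` (any `d`) closed
under the erasing of binary digits, the answer to Q1 is yes; moreover a proportion `K^(-750)` of `A`
is in a progression of rank at most `6300 log K` and size at most `K^2000 |A|`. -/
theorem result :
    (∀ (d : ℕ) (K : ℝ) (A : Finset (Fin d → ℤ)), A.Nonempty →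
      ((A + A).card : ℝ) ≤ K * A.card →
      ∃ (J : Fin d → Finset ℕ) (A' : Finset (Fin d → ℤ)),
        A' ⊆ A ∧ (A.card : ℝ) ≤ K ^ 750 * A'.card ∧
        (2 : ℝ) ^ (∑ l, (J l).card) ≤ K ^ 2000 * A.card ∧
        ((∑ l, ((J l).filter (fun j => j + 1 ∉ J l)).card : ℕ) : ℝ) ≤ 6300 * Real.log K ∧
        (∀ x ∈ A', ∀ y ∈ A', ∀ m : ℕ,
          (∀ l, (2 : ℤ) ^ m ∣ x l - y l) ↔ (∀ l, (2 : ℤ) ^ m ∣ kp J x l - kp J y l)) ∧
        (∃ (r : ℕ) (n : Fin r → ℕ) (v : Fin r → (Fin d → ℤ)),
          r = ∑ l, ((J l).filter (fun j => j + 1 ∉ J l)).card ∧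
          ∏ i, n i = 2 ^ (∑ l, (J l).card) ∧
          ∀ x : Fin d → ℤ, ∃ c : Fin r → ℤ, (∀ i, 0 ≤ c i ∧ c i < n i) ∧ kp J x = ∑ i, c i • v i) ∧
        (∀ m : ℕ,
          (A'.image (fun x l => x l % 2 ^ m)).card ≤ 2 ^ (∑ l, ((J l).filter (fun j => j < m)).card) ∧
          (2 : ℝ) ^ (∑ l, ((J l).filter (fun j => j < m)).card) ≤
            K ^ 2750 * (A'.image (fun x l => x l % 2 ^ m)).card)) ∧
    (∀ (Γ : Type u) [AddCommGroup Γ] [DecidableEq Γ] (K : ℝ) (A : Finset Γ), A.Nonempty →
      ((A + A).card : ℝ) ≤ K * A.card →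
      ∀ (d : ℕ) (S : Finset (Fin d → ℤ)) (f : (Fin d → ℤ) → Γ), Erase S →
        IsAddFreimanIso 2 (S : Set (Fin d → ℤ)) (A : Set Γ) f →
        (∃ (r : ℕ) (n : Fin r → ℕ) (ψ : (Fin r → ℤ) →+ Γ) (g : Γ),
          (r : ℝ) ≤ 6300 * Real.log K ∧ (∀ i, 0 < n i) ∧ (∏ i, (n i : ℝ)) ≤ K ^ 2000 * A.card ∧
          (A.card : ℝ) ≤ K ^ 750 * ({a : Γ | a ∈ A ∧ ∃ x : Fin r → ℤ,
            (∀ i, 0 ≤ x i ∧ x i < n i) ∧ a = g + ψ x}.ncard : ℝ)) ∧
        (∃ (s : ℕ) (B : Set (Fin s → ℝ)) (θ : (Fin s → ℤ) →+ Γ) (H : AddSubgroup Γ) (T : Finset Γ),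
          (s : ℝ) ≤ 500 * Real.log (2 * K ^ 4400) ∧ Body B ∧ Finite H ∧
          (lat B).ncard * Nat.card H ≤ A.card ∧ (T.card : ℝ) ≤ 5000 * (K ^ 4400) ^ 5000 ∧
          Cov B θ H T A)) := by
  constructor
  · intro d K A hA hK
    have hK1 := one_le_K hA hK
    have hK0 : 0 < K := by linarith
    obtain ⟨J, A', h1, h2, h3, h4, -, h6⟩ := core A hA K hK
    have hI : Iso J A' := h6
    refine ⟨J, A', h1, h2, h3, h4, h6, ?_, ?_⟩
    · let e := (ivl J).equivFin
      refine ⟨(ivl J).card, fun i => 2 ^ (grp (J (e.symm i).1.1) (e.symm i).1.2).card,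
        fun i => Pi.single (e.symm i).1.1 ((2:ℤ) ^ (st (J (e.symm i).1.1) (e.symm i).1.2)), ?_, ?_, ?_⟩
      · exact card_ivl J
      · rw [← sum_grp, ← Finset.prod_pow_eq_pow_sum, ← Finset.prod_coe_sort (ivl J)]
        exact Fintype.prod_equiv e.symm _ _ (fun i => rfl)
      · intro x
        refine ⟨fun i => cf J x (e.symm i).1, ?_, ?_⟩
        · intro i
          have := cf_mem J x (e.symm i).1
          push_cast
          exact this
        · rw [kp_prog, ← Finset.sum_coe_sort (ivl J)]
          exact (Fintype.sum_equiv e.symm _ _ (fun i => rfl)).symm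
    · intro m
      obtain ⟨g1, g2⟩ := hI.growth m
      refine ⟨g1, ?_⟩
      have hA0 : (0:ℝ) < A.card := by exact_mod_cast hA.card_pos
      have e1 : ∑ l, (J l).card = ∑ l, ((J l).filter (fun j => j < m)).card +
          ∑ l, ((J l).filter (fun j => m ≤ j)).card := by
        rw [← Finset.sum_add_distrib]
        apply Finset.sum_congr rfl
        intro l _
        rw [← Finset.card_filter_add_card_filter_not (fun j => j < m)]
        simp only [not_lt]
      rw [e1, pow_add] at h3
      have g3 : (A'.card : ℝ) ≤ 2 ^ (∑ l, ((J l).filter (fun j => m ≤ j)).card) *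
          (A'.image (fun x l => x l % 2 ^ m)).card := by
        exact_mod_cast g2
      set a : ℝ := 2 ^ (∑ l, ((J l).filter (fun j => j < m)).card)
      set b : ℝ := 2 ^ (∑ l, ((J l).filter (fun j => m ≤ j)).card)
      set N : ℝ := ((A'.image (fun x l => x l % 2 ^ m)).card : ℝ)
      have hb : 0 < b := by positivity
      have hN : 0 ≤ N := Nat.cast_nonneg _
      have h7 : a * b ≤ (K ^ 2750 * N) * b := by
        calc a * b ≤ K ^ 2000 * A.card := h3
          _ ≤ K ^ 2000 * (K ^ 750 * A'.card) := mul_le_mul_of_nonneg_left h2 (pow_pos hK0 _).le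
          _ ≤ K ^ 2000 * (K ^ 750 * (b * N)) := mul_le_mul_of_nonneg_left
              (mul_le_mul_of_nonneg_left g3 (pow_pos hK0 _).le) (pow_pos hK0 _).le
          _ = (K ^ 2750 * N) * b := by
            rw [show 2750 = 2000 + 750 by norm_num, pow_add]; ring
      exact le_of_mul_le_mul_right h7 hb
  · intro Γ _ _ K A hA hK d S f hE hf
    have hf' := isAddFreimanIso_two.1 hf
    have himg : S.image f = A := by
      apply Finset.coe_injective
      rw [Finset.coe_image]
      exact hf'.1.image_eq
    have hS : S.Nonempty := by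
      rw [← himg] at hA
      exact Finset.image_nonempty.1 hA
    obtain ⟨r, n, ψ, g1, g2, g3, g4⟩ := hered S hS hE f
      (fun a ha b hb h => hf'.1.injOn ha hb h)
      (fun a ha b hb c hc e he => hf'.2 a ha b hb c hc e he) K (by rw [himg]; exact hK)
    rw [himg] at g3 g4
    refine ⟨⟨r, n, ψ, f 0, g1, g2, g3, ?_⟩, q1 A hA K hK g1 g2 g3 g4⟩
    have e1 : {a : Γ | a ∈ A ∧ ∃ x : Fin r → ℤ, (∀ i, 0 ≤ x i ∧ x i < n i) ∧ a = f 0 + ψ x} =
        ((@Finset.filter _ (fun a => ∃ x : Fin r → ℤ, (∀ i, 0 ≤ x i ∧ x i < n i) ∧ a = f 0 + ψ x)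
          (fun a => Classical.propDecidable _) A : Finset Γ) : Set Γ) := by
      rw [Finset.coe_filter]
    rw [e1, Set.ncard_coe_finset]
    exact g4

end Pool.Agent.Results.MP_dd2a7c_co.TwoAdicStructure
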